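import Pool.Agent.MP_887f27_pr.H69.Spec

set_option autoImplicit false

namespace Pool.Agent.MP_887f27_pr.H39

open Pool.Agent.MP_887f27_pr.H69 Pool.Agent.MP_77ae5d_pr.H74
open MeasureTheory Set Filter Topology
open scoped ENNReal symmDiff

theorem finite_dep (N : Finset V) : {B : Set Cfg | Dep B (N : Set V)}.Finite := by
  refine (finite_range fun S : Set (N → Bool) =>
    (fun (b : Cfg) (i : N) => b i) ⁻¹' S).subset fun B hB => ⟨(fun (b : Cfg) (i : N) => b i) '' B, ?_⟩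
  ext b
  exact ⟨fun ⟨c, h, e⟩ => hB c b (fun i hi => congrFun e ⟨i, hi⟩) h, fun h => ⟨b, h, rfl⟩⟩

theorem subseq (A : ℕ → V → Set Cfg)
    (h : ∀ y (m : ℕ), ∃ N : Finset V, ∀ᶠ n in atTop, ∃ B, Dep B (N : Set V) ∧
      pi0 (A n y ∆ B) ≤ 2⁻¹ ^ m) :
    ∃ φ : ℕ → ℕ, StrictMono φ ∧ ∀ᵐ b ∂pi0, ∀ y,
      ∀ᶠ t in atTop, (b ∈ A (φ t) y ↔ ∀ᶠ s in atTop, b ∈ A (φ s) y) := by
  have h1 : ∀ y (m : ℕ), ∃ B, ∀ᶠ n in (hyperfilter ℕ : Filter ℕ), pi0 (A n y ∆ B) ≤ 2⁻¹ ^ m := by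
    intro y m
    obtain ⟨N, hN⟩ := h y m
    obtain ⟨B, -, hB⟩ := (Ultrafilter.eventually_exists_mem_iff (f := hyperfilter ℕ)
      (finite_dep N)).1 (hN.filter_mono Nat.hyperfilter_le_atTop)
    exact ⟨B, hB⟩
  choose B hB using h1
  obtain ⟨e, he⟩ := exists_surjective_nat V
  obtain ⟨φ, h2, h3⟩ := extraction_forall_of_frequently
    (P := fun t n => ∀ i ∈ Iic t, ∀ m ∈ Iic t, pi0 (A n (e i) ∆ B (e i) m) ≤ 2⁻¹ ^ m) fun t =>
      ((eventually_all_finite (finite_Iic t)).2 fun i _ =>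
        (eventually_all_finite (finite_Iic t)).2 fun m _ => hB (e i) m).frequently.filter_mono
        Nat.hyperfilter_le_atTop
  refine ⟨φ, h2, ae_all_iff.2 fun y => ?_⟩
  obtain ⟨i, rfl⟩ := he y
  have : ∑' t, pi0 (A (φ (t + i)) (e i) ∆ A (φ (t + i + 1)) (e i)) ≠ ⊤ := by
    refine ne_top_of_le_ne_top (b := ∑' t : ℕ, ((2⁻¹ : ℝ≥0∞) ^ t + 2⁻¹ ^ t)) ?_
      (ENNReal.tsum_le_tsum fun t => (measure_symmDiff_le _ (B (e i) t) _).trans (add_le_add
        (h3 _ i (by simp) t (by simp)) ?_))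
    · rw [ENNReal.tsum_add, ENNReal.tsum_geometric]
      simp
    · rw [symmDiff_comm]
      exact h3 _ i (mem_Iic.2 (by omega)) t (mem_Iic.2 (by omega))
  filter_upwards [ae_eventually_notMem this] with b hb
  obtain ⟨n, hn⟩ := eventually_atTop.1 hb
  have c : EventuallyConst (fun t => b ∈ A (φ t) (e i)) atTop :=
    eventuallyConst_atTop_nat.2 ⟨n + i, fun m hm => by
      have := hn (m - i) (by omega)
      rw [show m - i + i = m by omega, mem_symmDiff] at this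
      exact propext (by tauto)⟩
  rcases eventuallyConst_pred.1 c with k | k
  · exact k.mono fun t ht => iff_of_true ht k
  · exact k.mono fun t ht => iff_of_false ht fun k' => by
      obtain ⟨s, h1, h2⟩ := (k.and k').exists
      exact h1 h2

theorem path_ev {U : ℕ → Set V} {W : Set V} (h : ∀ y, ∀ᶠ t in atTop, (y ∈ U t ↔ y ∈ W)) :
    ∀ l v d, ∀ᶠ t in atTop, (H69.Path (U t) l v d ↔ H69.Path W l v d)
  | 0, _, _ => .of_forall fun _ => Iff.rfl
  | l + 1, v, d => by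
    filter_upwards [h (v * g d), eventually_all.2 fun d' => path_ev h l (v * g d) d'] with t h1 h2
    simp only [H69.Path, h1, h2]

theorem ae_update {p : Cfg → Prop} (hp : ∀ᵐ b ∂pi0, p b) (h : V) (s : Bool) :
    ∀ᵐ b ∂pi0, p (Function.update b h s) := by
  refine Measure.QuasiMeasurePreserving.ae (f := fun b : Cfg => Function.update b h s)
    ⟨measurable_update_left, Measure.AbsolutelyContinuous.mk fun N hN h0 => ?_⟩ hp
  rw [Measure.map_apply measurable_update_left hN]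
  have := measure_inter_coord (fun _ : V => ber (1 / 2)) hN h s
  rw [ber_half] at this
  replace this := (measure_mono_null inter_subset_left h0).symm.trans this
  exact (mul_eq_zero.1 this.symm).resolve_left (by simp)

theorem core (ab : AbstractStmt) (K Err : ℕ → Cfg → Set V) (c : ℝ≥0∞) (hc : c ≠ 0)
    (mK : ∀ n y, MeasurableSet {b | y ∈ K n b}) (an : ∀ n b b', b ≤ b' → K n b' ⊆ K n b)
    (hh : ∀ n y, pi0 {b | y ∈ K n b} ≤ 1 / 2) (lc : ∀ n, c ≤ pi0 {b | 1 ∈ K n b})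
    (er : ∀ y, ∑' n, pi0 {b | y ∈ Err n b} ≠ ⊤) (dg : ∀ n b y, y ∉ Err n b → Deg (K n b) y)
    (cl : ∀ Y : Finset V, ∃ n₀, ∀ n, n₀ ≤ n → ∀ b, (∀ w ∈ Y, w ∉ Err n b) → Clos (K n b) Y)
    (tb : ∀ y (m : ℕ), ∃ N : Finset V, ∀ᶠ n in atTop, ∃ B, Dep B (N : Set V) ∧
      pi0 ({b | y ∈ K n b} ∆ B) ≤ 2⁻¹ ^ m)
    (tr : ∀ y k r, ∃ l, ∀ n h, ¬ Trif (K n) h y k r l) : False := by
  obtain ⟨φ, h1, h2⟩ := subseq (fun n y => {b | y ∈ K n b}) tb
  let L : Cfg → Set V := fun b => {y | ∀ᶠ s in atTop, y ∈ K (φ s) b}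
  replace h2 : ∀ᵐ b ∂pi0, ∀ y, ∀ᶠ t in atTop, (y ∈ K (φ t) b ↔ y ∈ L b) := h2
  have mL : ∀ y, MeasurableSet {b | y ∈ L b} := fun y => by
    simp only [L, mem_ofPred_eq, eventually_atTop]
    exact measurableSet_setOfPred.2 (Measurable.exists fun a => Measurable.forall fun t =>
      measurable_const.imp (measurableSet_setOfPred.1 (mK _ y)))
  have lim : ∀ y, Tendsto (fun t => pi0 {b | y ∈ K (φ t) b}) atTop (𝓝 (pi0 {b | y ∈ L b})) :=
    fun y => tendsto_measure_of_ae_tendsto_indicator_of_isFiniteMeasure atTop (mL y)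
      (fun t => mK _ y) (h2.mono fun b hb => hb y)
  refine ab L mL (fun b b' hb y hy => hy.mono fun t ht => an _ b b' hb ht)
    (fun y => le_of_tendsto' (lim y) fun t => hh _ y)
    (fun e => hc (le_zero_iff.1 (e ▸ ge_of_tendsto' (lim 1) fun t => lc _))) ?_ fun h y k => ?_
  · filter_upwards [h2, ae_all_iff.2 fun y => ae_eventually_notMem (er y)] with b hb he
    have he' : ∀ y, ∀ᶠ t in atTop, y ∉ Err (φ t) b := fun y => h1.tendsto_atTop.eventually (he y)
    refine ⟨fun y hy => ?_, fun Y hY w hw => ?_⟩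
    · obtain ⟨t, a1, a2, a3⟩ := ((hb y).and ((he' y).and
        (eventually_all.2 fun d => hb (y * g d)))).exists
      exact (dg _ b y a2 (a1.2 hy)).mono fun d => (a3 d).1
    · obtain ⟨n, hn⟩ := cl Y
      obtain ⟨t, a1, a2, a3, a4⟩ := ((hb w).and (((eventually_all_finset Y).2 fun v _ => he' v).and
        (((eventually_all_finset Y).2 fun v _ => eventually_all.2 fun d => hb (v * g d)).and
        (h1.tendsto_atTop.eventually (eventually_ge_atTop n))))).exists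
      exact a1.1 (hn _ a4 b a2 (fun v hv => (hY v hv).mono fun d k => k.imp_right (a3 v hv d).2) w hw)
  · have a : ∀ d, ∀ᶠ r : ℕ in atTop, (∃ r e, Desc r (y, d) e ∧
        pi0 {b | Ray (F L h b) e.1 e.2} ≠ 0) → ∃ e, Desc r (y, d) e ∧
          ((r : ℝ≥0∞) + 1)⁻¹ < pi0 {b | Ray (F L h b) e.1 e.2} := fun d => by
      refine eventually_imp_distrib_left.2 fun ⟨r, e, a1, a2⟩ => ?_
      filter_upwards [eventually_ge_atTop r, (ENNReal.tendsto_inv_nat_nhds_zero.comp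
        (tendsto_add_atTop_nat 1)).eventually (gt_mem_nhds (pos_iff_ne_zero.2 a2))] with s b1 b2
      exact ⟨e, a1.mono b1, by simpa using b2⟩
    obtain ⟨r, hr⟩ := (eventually_all.2 a).exists
    obtain ⟨l, hl⟩ := tr y r r
    have lim' : ∀ v d, Tendsto (fun t => pi0 {b | Path (F (K (φ t)) h b) l v d}) atTop
        (𝓝 (pi0 {b | Path (F L h b) l v d})) := fun v d =>
      tendsto_measure_of_ae_tendsto_indicator_of_isFiniteMeasure atTop (ms_path (ms_F mL h) l v d)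
        (fun t => ms_path (ms_F (mK _) h) l v d) (by
          filter_upwards [ae_update h2 h false, ae_update h2 h true] with b b1 b2
          refine path_ev (fun x => ?_) l v d
          filter_upwards [b1 x, b2 x] with t c1 c2
          simp only [F, Set.mem_sdiff, c1, c2])
    have a' : ∀ d, ∀ᶠ t in atTop, (∃ e, Desc r (y, d) e ∧
        ((r : ℝ≥0∞) + 1)⁻¹ < pi0 {b | Ray (F L h b) e.1 e.2}) → ∃ e, Desc r (y, d) e ∧
          ((r : ℝ≥0∞) + 1)⁻¹ ≤ pi0 {b | Path (F (K (φ t)) h b) l e.1 e.2} := fun d => by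
      refine eventually_imp_distrib_left.2 fun ⟨e, a1, a2⟩ => ?_
      filter_upwards [(lim' e.1 e.2).eventually (lt_mem_nhds (a2.trans_le
        (measure_mono fun b hb => hb l)))] with t ht
      exact ⟨e, a1, ht.le⟩
    obtain ⟨t, ht⟩ := (eventually_all.2 a').exists
    exact hl (φ t) h (k.mono fun d x => ht d (hr d x))

theorem relabel (s : ℕ → ℕ) (J : ℕ → ℕ → Finset V) (hJ : ∀ n i, (J n i).card ≤ s i) :
    ∃ (N : ℕ → Finset V) (ρ : ℕ → Equiv.Perm V), ∀ i n, i ≤ n → ∀ v ∈ J n i, ρ n v ∈ N i := by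
  classical
  obtain ⟨ν⟩ : Nonempty (ℕ × ℕ ≃ V) := nonempty_equiv_of_countable
  have : ∀ n, ∃ ρ : Equiv.Perm V, ∀ i ≤ n, ∀ v ∈ J n i, ∃ k ≤ i, ∃ j < s k, ρ v = ν (k, j) := by
    intro n
    have : Finite {v // ∃ i, i ≤ n ∧ v ∈ J n i} :=
      ((finite_Iic n).biUnion fun i _ => (J n i).finite_toSet).subset fun v ⟨i, h1, h2⟩ =>
        mem_biUnion h1 h2
    obtain ⟨ρ, hρ⟩ := Equiv.Perm.exists_extending_pair
      (f := fun v : {v // ∃ i, i ≤ n ∧ v ∈ J n i} => v.1)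
      (g := fun v => ν (Nat.find v.2, (J n (Nat.find v.2)).toList.idxOf v.1)) Subtype.val_injective
      fun v w e => by
        obtain ⟨e1, e2⟩ := Prod.mk.inj (ν.injective e)
        rw [← e1] at e2
        exact Subtype.ext ((List.idxOf_inj (Finset.mem_toList.2 (Nat.find_spec v.2).2)).1 e2)
    refine ⟨ρ, fun i hi v hv => ⟨_, Nat.find_min' (⟨i, hi, hv⟩ : ∃ i, i ≤ n ∧ v ∈ J n i) ⟨hi, hv⟩, _,
      ?_, hρ ⟨v, i, hi, hv⟩⟩⟩
    refine (List.idxOf_lt_length_of_mem (Finset.mem_toList.2 (Nat.find_spec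
      (⟨i, hi, hv⟩ : ∃ i, i ≤ n ∧ v ∈ J n i)).2)).trans_le ?_
    rw [Finset.length_toList]
    exact hJ _ _
  choose ρ hρ using this
  refine ⟨fun i => (Finset.range (i + 1)).biUnion fun k => (Finset.range (s k)).image
    fun j => ν (k, j), ρ, fun i n hi v hv => ?_⟩
  obtain ⟨k, h1, j, h2, e⟩ := hρ n i hi v hv
  simp only [Finset.mem_biUnion, Finset.mem_image, Finset.mem_range]
  exact ⟨k, by omega, j, h2, e.symm⟩

theorem pi0_perm (ρ : Equiv.Perm V) {S : Set Cfg} (hS : MeasurableSet S) :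
    pi0 {b | b ∘ ρ ∈ S} = pi0 S := by
  have := map_perm (fun _ : V => ber (1 / 2)) ρ fun _ => rfl
  conv_rhs => rw [pi0, nu, ← this, Measure.map_apply (by fun_prop) hS]
  rfl

theorem limit : LimitStmt := by
  intro ju ab K Err c hc lK mE an hh lc er dg cl hM tr
  choose M hM1 hM2 using hM
  have mK := fun n y => (lK n y).measurableSet
  obtain ⟨e, he⟩ := exists_surjective_nat (V × ℕ)
  choose s hs using fun i => ju (M (e i).1) (2⁻¹ ^ (e i).2) (hM1 _) (by simp)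
  choose J h1 B h2 h3 using fun n i => hs i _ (lK n (e i).1) (le_of_eq_of_le (tsum_congr fun h => by
    congr 1
    ext b
    have := @an n (Function.update b h false) (Function.update b h true)
      (update_le_update_iff.2 ⟨by simp, fun _ _ => le_rfl⟩) (e i).1
    simp only [F, mem_ofPred_eq, Set.mem_sdiff]
    tauto) (hM2 (e i).1 n))
  obtain ⟨N, ρ, hρ⟩ := relabel s J h1
  have mρ : ∀ n, Measurable fun b : Cfg => b ∘ ρ n := fun n =>
    measurable_pi_lambda _ fun _ => measurable_pi_apply _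
  refine core ab (fun n b => K n (b ∘ ρ n)) (fun n b => Err n (b ∘ ρ n)) c hc
    (fun n y => (mK n y).preimage (mρ n)) (fun n b b' h => an n _ _ fun v => h _)
    (fun n y => (pi0_perm (ρ n) (mK n y)).trans_le (hh n y))
    (fun n => (lc n).trans_eq (pi0_perm (ρ n) (mK n 1)).symm)
    (fun y => (tsum_congr fun n => pi0_perm (ρ n) (mE n y)).trans_ne (er y))
    (fun n b => dg n _) (fun Y => (cl Y).imp fun n hn k hk b => hn k hk _) (fun y m => ?_)
    fun y k r => (tr y k r).imp fun l hl n h t => hl n ((ρ n).symm h) (t.mono fun d ⟨x, a1, a2⟩ =>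
      ⟨x, a1, a2.trans_eq ?_⟩)
  · obtain ⟨i, hi⟩ := he (y, m)
    refine ⟨N i, (eventually_ge_atTop i).mono fun n hn => ⟨{b | b ∘ ρ n ∈ B n i},
      fun a b hab ha => h2 n i _ _ (fun v hv => hab _ (hρ i n hn v hv)) ha, ?_⟩⟩
    have := h3 n i
    rw [hi, ← pi0_perm (ρ n) ((mK n y).symmDiff ((h2 n i).measurableSet (Finset.finite_toSet _)))]
      at this
    exact this
  · rw [← pi0_perm (ρ n) (ms_path (ms_F (mK n) _) l _ _)]
    simp only [F, mem_ofPred_eq, Function.update_comp_equiv]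

end Pool.Agent.MP_887f27_pr.H39
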